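import Mathlib

/-!
# When the generalised Graham function `g m n` equals `2 n`, for odd `m`

For every odd `m ≥ 3`: if `g m n = 2 n` then `n = 0`, or `n` is prime, or `n = 4` and `m ≥ 5`, or
`(m, n) = (3, 6)`.

Main idea: for `n = a b` the numbers `a b`, `a (b + 1)`, `(a + 1) b`, `(a + 1) (b + 1)` taken
`1`, `m - 1`, `m - 1`, `1` times have product `(a b (a + 1) (b + 1)) ^ m`, so
`g m (a b) ≤ (a + 1) (b + 1)`, and this is less than `2 a b` unless `a b ≤ 6`.
-/

set_option autoImplicit false

namespace Pool.Agent.Results.MP_c9219e_nt.OddModuli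

/-- `l` is an `m`-product sequence: a non-decreasing finite sequence of natural numbers whose
product is an `m`-th power and in which every number occurs at most `m - 1` times. -/
def IsProductSeq (m : ℕ) (l : List ℕ) : Prop :=
  l.Pairwise (· ≤ ·) ∧ (∃ R : ℕ, l.prod = R ^ m) ∧ ∀ a : ℕ, l.count a ≤ m - 1

/-- `g m n` is the least `s` such that some `m`-product sequence has first term `n` and last
term `s`. -/
noncomputable def g (m n : ℕ) : ℕ :=
  sInf {s : ℕ | ∃ l : List ℕ, IsProductSeq m l ∧ l.head? = some n ∧ l.getLast? = some s}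

lemma g_le {m n s : ℕ} (l : List ℕ) (hl : IsProductSeq m l) (h1 : l.head? = some n)
    (h2 : l.getLast? = some s) : g m n ≤ s :=
  Nat.sInf_le ⟨l, hl, h1, h2⟩

/-- the basic construction, `a < b` -/
lemma g_mul_le {m a b : ℕ} (hm : 2 ≤ m) (ha : 1 ≤ a) (hab : a < b) :
    g m (a * b) ≤ (a + 1) * (b + 1) := by
  have h1 : a * b < a * (b + 1) := by nlinarith
  have h2 : a * (b + 1) < (a + 1) * b := by nlinarith
  have h3 : (a + 1) * b < (a + 1) * (b + 1) := by nlinarith
  refine g_le (a * b :: (List.replicate (m - 1) (a * (b + 1)) ++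
    (List.replicate (m - 1) ((a + 1) * b) ++ [(a + 1) * (b + 1)]))) ⟨?_, ?_, ?_⟩ rfl ?_
  · rw [List.pairwise_cons]
    constructor
    · intro x hx
      simp only [List.mem_append, List.mem_replicate, List.mem_singleton] at hx
      rcases hx with ⟨-, rfl⟩ | ⟨-, rfl⟩ | rfl <;> linarith
    · rw [List.pairwise_append]
      refine ⟨List.pairwise_replicate.2 (Or.inr le_rfl), ?_, ?_⟩
      · rw [List.pairwise_append]
        refine ⟨List.pairwise_replicate.2 (Or.inr le_rfl), List.pairwise_singleton _ _, ?_⟩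
        intro x hx y hy
        rw [List.mem_replicate] at hx
        rw [List.mem_singleton] at hy
        rw [hx.2, hy]
        exact h3.le
      · intro x hx y hy
        rw [List.mem_replicate] at hx
        simp only [List.mem_append, List.mem_replicate, List.mem_singleton] at hy
        rw [hx.2]
        rcases hy with ⟨-, rfl⟩ | rfl <;> linarith
  · obtain ⟨k, rfl⟩ : ∃ k, m = k + 1 := ⟨m - 1, by omega⟩
    refine ⟨a * b * (a + 1) * (b + 1), ?_⟩
    simp only [List.prod_cons, List.prod_append, List.prod_replicate, List.prod_nil,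
      Nat.add_sub_cancel]
    simp only [mul_pow, pow_succ]
    ring
  · intro x
    simp only [List.count_cons, List.count_append, List.count_replicate, List.count_nil,
      beq_iff_eq]
    split_ifs <;> omega
  · rw [← List.append_assoc, ← List.cons_append, List.getLast?_append]
    rfl

/-- the basic construction, `a = b` -/
lemma g_sq_le {m a : ℕ} (hm : 3 ≤ m) (ha : 1 ≤ a) :
    g m (a * a) ≤ (a + 1) * (a + 1) := by
  have h1 : a * a < a * (a + 1) := by nlinarith
  have h3 : a * (a + 1) < (a + 1) * (a + 1) := by nlinarith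
  refine g_le (a * a :: (List.replicate (m - 2) (a * (a + 1)) ++ [(a + 1) * (a + 1)]))
    ⟨?_, ?_, ?_⟩ rfl ?_
  · rw [List.pairwise_cons]
    constructor
    · intro x hx
      simp only [List.mem_append, List.mem_replicate, List.mem_singleton] at hx
      rcases hx with ⟨-, rfl⟩ | rfl <;> linarith
    · rw [List.pairwise_append]
      refine ⟨List.pairwise_replicate.2 (Or.inr le_rfl), List.pairwise_singleton _ _, ?_⟩
      intro x hx y hy
      rw [List.mem_replicate] at hx
      rw [List.mem_singleton] at hy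
      rw [hx.2, hy]
      exact h3.le
  · obtain ⟨k, rfl⟩ : ∃ k, m = k + 2 := ⟨m - 2, by omega⟩
    refine ⟨a * (a + 1), ?_⟩
    simp only [List.prod_cons, List.prod_append, List.prod_replicate, List.prod_nil,
      Nat.add_sub_cancel]
    simp only [mul_pow, pow_succ]
    ring
  · intro x
    simp only [List.count_cons, List.count_append, List.count_replicate, List.count_nil,
      beq_iff_eq]
    split_ifs <;> omega
  · rw [← List.cons_append, List.getLast?_append]
    rfl

/-- `n = 6` and `m ≥ 5` odd -/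
lemma g_six_le {m a b c R : ℕ} (ha : 1 ≤ a) (ham : a ≤ m - 1) (hb : b ≤ m - 1) (hc : 1 ≤ c)
    (hcm : c ≤ m - 1) (h : 6 ^ a * (8 ^ b * 9 ^ c) = R ^ m) : g m 6 ≤ 9 := by
  obtain ⟨a, rfl⟩ : ∃ k, a = k + 1 := ⟨a - 1, by omega⟩
  obtain ⟨c, rfl⟩ : ∃ k, c = k + 1 := ⟨c - 1, by omega⟩
  refine g_le (List.replicate (a + 1) 6 ++ (List.replicate b 8 ++ List.replicate (c + 1) 9))
    ⟨?_, ?_, ?_⟩ ?_ ?_
  · rw [List.pairwise_append]
    refine ⟨List.pairwise_replicate.2 (Or.inr le_rfl), ?_, ?_⟩
    · rw [List.pairwise_append]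
      refine ⟨List.pairwise_replicate.2 (Or.inr le_rfl),
        List.pairwise_replicate.2 (Or.inr le_rfl), ?_⟩
      intro x hx y hy
      rw [List.mem_replicate] at hx hy
      omega
    · intro x hx y hy
      simp only [List.mem_append, List.mem_replicate] at hx hy
      omega
  · exact ⟨R, by simp only [List.prod_append, List.prod_replicate]; exact h⟩
  · intro x
    simp only [List.count_append, List.count_replicate, beq_iff_eq]
    split_ifs <;> omega
  · simp [List.replicate_succ]
  · rw [List.getLast?_append, List.getLast?_append, List.getLast?_replicate]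
    simp

lemma g_six_lt {m : ℕ} (hm : Odd m) (h5 : 5 ≤ m) : g m 6 ≤ 9 := by
  obtain ⟨k, rfl⟩ := hm
  have h3 : (2 * k + 1) % 3 = 0 ∨ (2 * k + 1) % 3 = 1 ∨ (2 * k + 1) % 3 = 2 := by omega
  rcases h3 with h3 | h3 | h3
  · -- `k = 3 j + 1`, `a = 3`, `b = 2 j`, `c = 3 j`
    obtain ⟨j, rfl⟩ : ∃ j, k = 3 * j + 1 := ⟨k / 3, by omega⟩
    refine g_six_le (a := 3) (b := 2 * j) (c := 3 * j) (R := 6) (by norm_num) (by omega)
      (by omega) (by omega) (by omega) ?_
    rw [show (6 : ℕ) = 2 * 3 by norm_num, show (8 : ℕ) = 2 ^ 3 by norm_num,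
      show (9 : ℕ) = 3 ^ 2 by norm_num, ← pow_mul, ← pow_mul, mul_pow, mul_pow]
    ring
  · obtain ⟨j, rfl⟩ : ∃ j, k = 3 * j := ⟨k / 3, by omega⟩
    refine g_six_le (a := 1) (b := 2 * j) (c := 3 * j) (R := 6) (by norm_num) (by omega)
      (by omega) (by omega) (by omega) ?_
    rw [show (6 : ℕ) = 2 * 3 by norm_num, show (8 : ℕ) = 2 ^ 3 by norm_num,
      show (9 : ℕ) = 3 ^ 2 by norm_num, ← pow_mul, ← pow_mul, mul_pow, mul_pow]
    ring
  · obtain ⟨j, rfl⟩ : ∃ j, k = 3 * j + 2 := ⟨k / 3, by omega⟩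
    refine g_six_le (a := 1) (b := 4 * j + 3) (c := 3 * j + 2) (R := 12) (by norm_num) (by omega)
      (by omega) (by omega) (by omega) ?_
    rw [show (6 : ℕ) = 2 * 3 by norm_num, show (8 : ℕ) = 2 ^ 3 by norm_num,
      show (9 : ℕ) = 3 ^ 2 by norm_num, show (12 : ℕ) = 2 ^ 2 * 3 by norm_num, ← pow_mul,
      ← pow_mul, mul_pow, mul_pow, ← pow_mul]
    ring

lemma padic_list_prod (p : ℕ) [Fact p.Prime] (l : List ℕ) (hl : ∀ x ∈ l, x ≠ 0) :
    padicValNat p l.prod = (l.map (padicValNat p)).sum := by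
  induction l with
  | nil => simp
  | cons x l ih =>
    have h1 : x ≠ 0 := hl x (by simp)
    have h2 : ∀ y ∈ l, y ≠ 0 := fun y hy => hl y (by simp [hy])
    have h3 : l.prod ≠ 0 := List.prod_ne_zero (fun h => h2 0 h rfl)
    rw [List.prod_cons, padicValNat.mul h1 h3, ih h2]
    simp

/-- `8` is not attained for `m = 3`, `n = 4` -/
lemma not_eight : ¬ ∃ l : List ℕ, IsProductSeq 3 l ∧ l.head? = some 4 ∧ l.getLast? = some 8 := by
  rintro ⟨l, ⟨hs, ⟨R, hR⟩, hc⟩, h1, h2⟩
  obtain ⟨t, rfl⟩ : ∃ t, l = 4 :: t := by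
    cases l with
    | nil => simp at h1
    | cons x t => exact ⟨t, by simpa using h1⟩
  set l := 4 :: t with hl
  have hlast : ∀ x ∈ l, x ≤ 8 := by
    obtain ⟨u, hu⟩ : ∃ u, l = u ++ [8] := by
      rw [List.getLast?_eq_some_iff] at h2
      exact h2
    intro x hx
    rw [hu] at hs hx
    rw [List.pairwise_append] at hs
    rw [List.mem_append, List.mem_singleton] at hx
    rcases hx with hx | hx
    · exact hs.2.2 x hx 8 (by simp)
    · omega
  have hfirst : ∀ x ∈ l, 4 ≤ x := by
    intro x hx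
    rw [hl, List.pairwise_cons] at hs
    rw [hl, List.mem_cons] at hx
    rcases hx with hx | hx
    · omega
    · exact hs.1 x hx
  have hsub : l.toFinset ⊆ Finset.Icc 4 8 := by
    intro x hx
    rw [List.mem_toFinset] at hx
    exact Finset.mem_Icc.2 ⟨hfirst x hx, hlast x hx⟩
  have hne : ∀ x ∈ l, x ≠ 0 := fun x hx => by have := hfirst x hx; omega
  have key : ∀ p : ℕ, [Fact p.Prime] → (∑ x ∈ Finset.Icc 4 8, l.count x * padicValNat p x)
      = 3 * padicValNat p R := by
    intro p _
    have e1 : padicValNat p (R ^ 3) = 3 * padicValNat p R := by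
      rw [padicValNat.pow]
    rw [← e1, ← hR, padic_list_prod p l hne, Finset.sum_list_map_count]
    simp only [smul_eq_mul]
    symm
    apply Finset.sum_subset hsub
    intro x _ hx
    rw [List.mem_toFinset] at hx
    rw [List.count_eq_zero_of_not_mem hx]
    simp
  have hI : Finset.Icc 4 8 = ({4, 5, 6, 7, 8} : Finset ℕ) := by decide
  have v2 : ∀ x k j : ℕ, j % 2 = 1 → x = 2 ^ k * j → padicValNat 2 x = k := by
    rintro x k j hj rfl
    have hj0 : j ≠ 0 := by omega
    rw [padicValNat.mul (by positivity) hj0, padicValNat.prime_pow,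
      padicValNat.eq_zero_of_not_dvd (by omega)]
    rfl
  have : Fact (Nat.Prime 3) := ⟨by norm_num⟩
  have v3 : ∀ x k j : ℕ, j % 3 ≠ 0 → x = 3 ^ k * j → padicValNat 3 x = k := by
    rintro x k j hj rfl
    have hj0 : j ≠ 0 := by omega
    rw [padicValNat.mul (by positivity) hj0, padicValNat.prime_pow,
      padicValNat.eq_zero_of_not_dvd (by omega)]
    rfl
  have k3 := key 3
  have k2 := key 2
  rw [hI] at k2 k3
  simp only [Finset.sum_insert (show (4 : ℕ) ∉ ({5, 6, 7, 8} : Finset ℕ) by decide),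
    Finset.sum_insert (show (5 : ℕ) ∉ ({6, 7, 8} : Finset ℕ) by decide),
    Finset.sum_insert (show (6 : ℕ) ∉ ({7, 8} : Finset ℕ) by decide),
    Finset.sum_insert (show (7 : ℕ) ∉ ({8} : Finset ℕ) by decide), Finset.sum_singleton] at k2 k3
  rw [v2 4 2 1 (by norm_num) (by norm_num), v2 5 0 5 (by norm_num) (by norm_num),
    v2 6 1 3 (by norm_num) (by norm_num), v2 7 0 7 (by norm_num) (by norm_num),
    v2 8 3 1 (by norm_num) (by norm_num)] at k2
  rw [v3 4 0 4 (by norm_num) (by norm_num), v3 5 0 5 (by norm_num) (by norm_num),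
    v3 6 1 2 (by norm_num) (by norm_num), v3 7 0 7 (by norm_num) (by norm_num),
    v3 8 0 8 (by norm_num) (by norm_num)] at k3
  have c4 := hc 4
  have c6 := hc 6
  have p4 : 0 < l.count 4 := List.count_pos_iff.2 (by simp [hl])
  omega

/-- Q1: for every odd `m ≥ 3` and every `n`, if `g m n = 2 n` then `n = 0`, or `n` is prime, or
`n = 4` and `m ≥ 5`, or `(m, n) = (3, 6)`. -/
theorem result (m : ℕ) (hm : Odd m) (h3 : 3 ≤ m) (n : ℕ) (h : g m n = 2 * n) :
    n = 0 ∨ n.Prime ∨ (n = 4 ∧ 5 ≤ m) ∨ (m = 3 ∧ n = 6) := by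
  by_contra hcon
  push Not at hcon
  obtain ⟨h0, hp, h4, h6⟩ := hcon
  have h1 : n ≠ 1 := by
    rintro rfl
    have : g m 1 ≤ 1 := by
      refine g_le [1] ⟨List.pairwise_singleton _ _, ⟨1, by simp⟩, ?_⟩ rfl rfl
      intro x
      rw [List.count_singleton]
      split_ifs <;> omega
    omega
  -- write `n = a * b`
  obtain ⟨a, b, ha, hab, rfl⟩ : ∃ a b, 2 ≤ a ∧ a ≤ b ∧ n = a * b := by
    refine ⟨n.minFac, n / n.minFac, (Nat.minFac_prime h1).two_le, ?_,
      (Nat.mul_div_cancel' (Nat.minFac_dvd n)).symm⟩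
    have hsq := Nat.minFac_sq_le_self (by omega) hp
    rw [Nat.le_div_iff_mul_le (Nat.minFac_pos n)]
    nlinarith
  by_cases hbig : (a + 1) * (b + 1) < 2 * (a * b)
  · have : g m (a * b) ≤ (a + 1) * (b + 1) := by
      rcases lt_or_eq_of_le hab with hlt | rfl
      · exact g_mul_le (by omega) (by omega) hlt
      · exact g_sq_le h3 (by omega)
    omega
  · -- small cases `(2, 2)` and `(2, 3)`
    have ha2 : a = 2 := by
      by_contra hne
      apply hbig
      have : 3 ≤ a := by omega
      nlinarith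
    subst ha2
    have hb3 : b = 2 ∨ b = 3 := by omega
    rcases hb3 with rfl | rfl
    · -- `n = 4`
      have hm3 : m = 3 := by
        by_contra hne
        have := h4 rfl
        obtain ⟨k, rfl⟩ := hm
        omega
      subst hm3
      have hmem : g 3 4 ∈ {s : ℕ | ∃ l : List ℕ, IsProductSeq 3 l ∧ l.head? = some 4 ∧
          l.getLast? = some s} := by
        apply Nat.sInf_mem
        by_contra hemp
        rw [Set.not_nonempty_iff_eq_empty] at hemp
        have h' : g 3 4 = 0 := by
          unfold g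
          rw [hemp]
          exact Nat.sInf_empty
        have h'' : g 3 4 = 8 := h
        omega
      have h'' : g 3 4 = 8 := h
      rw [h''] at hmem
      exact not_eight hmem
    · -- `n = 6`
      have hm5 : 5 ≤ m := by
        have hne : m ≠ 3 := fun h => h6 h rfl
        obtain ⟨k, rfl⟩ := hm
        omega
      have h7 := g_six_lt hm hm5
      have h8 : g m 6 = 12 := h
      omega

end Pool.Agent.Results.MP_c9219e_nt.OddModuli
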